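import Mathlib

set_option autoImplicit false

namespace Pool.Agent.VarDeg

/-- The variant `T_n^a` (all maps `Fin n → Fin n` with product `x * y = x ∘ a ∘ y`) embeds in the
full transformation monoid `T_m`. -/
def VariantEmbeds (n : ℕ) (a : Fin n → Fin n) (m : ℕ) : Prop :=
  ∃ φ : (Fin n → Fin n) → (Fin m → Fin m),
    Function.Injective φ ∧ ∀ x y, φ (x ∘ a ∘ y) = φ x ∘ φ y

/-- `k` is the minimum degree of the variant `T_n^a`: the least `m ≥ 1` such that `T_n^a` embeds
in `T_m`. -/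
def IsMinDegree (n : ℕ) (a : Fin n → Fin n) (k : ℕ) : Prop :=
  IsLeast {m : ℕ | 1 ≤ m ∧ VariantEmbeds n a m} k

end Pool.Agent.VarDeg
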