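import Mathlib

set_option autoImplicit false
set_option linter.unusedSectionVars false

namespace Pool.Agent.VarDeg

open Finset

section Lower

variable {X Ω : Type} [Fintype X] [DecidableEq X] [Fintype Ω] [DecidableEq Ω]
  (b : X → X) (c : Bool → X) (cl : X → Bool) (φ : (X → X) → (Ω → Ω))

/-- The map read off by the constants. -/
def eta (p : Ω) (a : X) : Ω := φ (fun _ => a) p

/-- A point is null if the constants act on it in the same way. -/
def IsNull (p : Ω) : Prop := ∀ a a' : X, eta φ p a = eta φ p a'

open Classical in
/-- The points reached by the action. -/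
noncomputable def reach : Finset Ω := univ.filter fun p => ∃ x q, φ x q = p

open Classical in
noncomputable def RA : Finset Ω := (reach φ).filter fun p => ¬ IsNull φ p

open Classical in
noncomputable def RB : Finset Ω := (reach φ).filter fun p => IsNull φ p

open Classical in
noncomputable def QA : Finset Ω := univ.filter fun p => p ∉ reach φ ∧ ¬ IsNull φ p

open Classical in
noncomputable def QB : Finset Ω := univ.filter fun p => p ∉ reach φ ∧ IsNull φ p

lemma mem_reach (x : X → X) (q : Ω) : φ x q ∈ reach φ := by
  classical
  simp only [reach, mem_filter, mem_univ, true_and]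
  exact ⟨x, q, rfl⟩

lemma card_total : (RA φ).card + (RB φ).card + ((QA φ).card + (QB φ).card) = Fintype.card Ω := by
  classical
  have h1 : (RA φ).card + (RB φ).card = (reach φ).card := by
    unfold RA RB
    rw [add_comm]
    exact Finset.card_filter_add_card_filter_not (s := reach φ) (fun p => IsNull φ p)
  have h2 : (QA φ).card + (QB φ).card = (univ.filter fun p => p ∉ reach φ).card := by
    unfold QA QB
    rw [add_comm, ← Finset.filter_filter, ← Finset.filter_filter]
    exact Finset.card_filter_add_card_filter_not
      (s := univ.filter fun p => p ∉ reach φ) (fun p => IsNull φ p)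
  have h3 := Finset.card_filter_add_card_filter_not (s := (univ : Finset Ω)) (fun p => p ∈ reach φ)
  have h4 : (univ.filter fun p => p ∈ reach φ) = reach φ := by
    ext p; simp
  rw [h4, Finset.card_univ] at h3
  rw [h1, h2, ← h3]

variable {b c cl φ}

variable (hφ : ∀ x y, φ (x ∘ b ∘ y) = φ x ∘ φ y)

include hφ

lemma act_act (x y : X → X) (q : Ω) : φ x (φ y q) = φ (x ∘ b ∘ y) q := by
  rw [hφ]; rfl

lemma eta_act (x : X → X) (p : Ω) : eta φ (φ x p) = eta φ p := by
  funext a
  unfold eta
  rw [act_act hφ]
  rfl

lemma act_eta (y : X → X) (p : Ω) (a : X) : φ y (eta φ p a) = eta φ p (y (b a)) := by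
  unfold eta
  rw [act_act hφ]
  rfl

lemma eta_eta (p : Ω) (a : X) : eta φ (eta φ p a) = eta φ p := eta_act hφ _ _

lemma isNull_act (x : X → X) (p : Ω) : IsNull φ (φ x p) ↔ IsNull φ p := by
  unfold IsNull
  rw [eta_act hφ]

variable (hb : ∀ p, b p = c (cl p))

include hb

lemma act_congr {x x' : X → X} (h : ∀ t, x (c t) = x' (c t)) {p : Ω} (hp : p ∈ reach φ) :
    φ x p = φ x' p := by
  classical
  unfold reach at hp
  obtain ⟨s, q, rfl⟩ := (Finset.mem_filter.1 hp).2
  rw [act_act hφ, act_act hφ]
  have e : x ∘ b ∘ s = x' ∘ b ∘ s := by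
    funext r
    simp [hb, h]
  rw [e]

variable (hc : c true ≠ c false)

include hc

lemma eta_ne {p : Ω} (hp : ¬ IsNull φ p) {a a' : X} (ha : cl a = true) (ha' : cl a' = false) :
    eta φ p a ≠ eta φ p a' := by
  intro h
  apply hp
  intro u u'
  have h1 := act_eta hφ (fun r => if r = c true then u else u') p a
  have h2 := act_eta hφ (fun r => if r = c true then u else u') p a'
  rw [h, h2, hb, hb, ha, ha'] at h1
  simpa [hc.symm] using h1.symm

variable (hinj : Function.Injective φ)

include hinj

/-- The counting bound. -/
lemma capacity (V : Finset X) {v : X} (hv : v ∈ V) (RT : Finset Ω)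
    (hRT : ∀ x : X → X, (∀ p, x p ∈ V) → ∀ q, ¬ IsNull φ q → φ x q ∈ RT) :
    V.card ^ (Fintype.card X - 2) ≤ RT.card ^ (QA φ).card * (RB φ).card ^ (QB φ).card := by
  classical
  let S : Finset (X → X) := Fintype.piFinset fun p =>
    if p = c true ∨ p = c false then {v} else V
  have hS : S.card = V.card ^ (Fintype.card X - 2) := by
    rw [Fintype.card_piFinset]
    have : ∀ p : X, (if p = c true ∨ p = c false then ({v} : Finset X) else V).card =
        if p = c true ∨ p = c false then 1 else V.card := by
      intro p; split_ifs <;> simp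
    rw [Finset.prod_congr rfl fun p _ => this p, Finset.prod_ite]
    simp only [prod_const_one, one_mul, prod_const]
    congr 1
    have h1 : (univ.filter fun p : X => ¬ (p = c true ∨ p = c false)) =
        univ \ {c true, c false} := by
      ext p; simp
    rw [h1, Finset.card_sdiff_of_subset (by simp), Finset.card_univ, Finset.card_pair hc]
  let T : Finset (Ω → Ω) := Fintype.piFinset fun q =>
    if q ∈ reach φ then {q} else if IsNull φ q then RB φ else RT
  have hT : T.card = RT.card ^ (QA φ).card * (RB φ).card ^ (QB φ).card := by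
    rw [Fintype.card_piFinset]
    have : ∀ q : Ω, (if q ∈ reach φ then ({q} : Finset Ω) else
        if IsNull φ q then RB φ else RT).card =
        (if q ∉ reach φ ∧ ¬ IsNull φ q then RT.card else 1) *
        (if q ∉ reach φ ∧ IsNull φ q then (RB φ).card else 1) := by
      intro q
      by_cases h1 : q ∈ reach φ <;> by_cases h2 : IsNull φ q <;> simp [h1, h2]
    rw [Finset.prod_congr rfl fun q _ => this q, Finset.prod_mul_distrib, Finset.prod_ite,
      Finset.prod_ite]
    simp only [prod_const_one, mul_one, prod_const]
    rfl
  rw [← hS, ← hT]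
  refine Finset.card_le_card_of_injOn
    (fun x q => if q ∈ reach φ then q else φ x q) ?_ ?_
  · intro x hx
    have hx' : ∀ p, x p ∈ V := by
      intro p
      have := (Fintype.mem_piFinset.1 hx) p
      split_ifs at this with h
      · rw [Finset.mem_singleton] at this
        rw [this]; exact hv
      · exact this
    rw [Finset.mem_coe, Fintype.mem_piFinset]
    intro q
    by_cases h1 : q ∈ reach φ
    · simp [h1]
    · by_cases h2 : IsNull φ q
      · simp only [h1, if_false, h2, if_true]
        unfold RB
        rw [Finset.mem_filter]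
        exact ⟨mem_reach φ x q, (isNull_act hφ x q).2 h2⟩
      · simp only [h1, if_false, h2]
        exact hRT x hx' q h2
  · intro x hx x' hx' h
    apply hinj
    funext q
    by_cases h1 : q ∈ reach φ
    · refine act_congr hφ hb (fun t => ?_) h1
      have e1 := (Fintype.mem_piFinset.1 hx) (c t)
      have e2 := (Fintype.mem_piFinset.1 hx') (c t)
      have e3 : (c t = c true ∨ c t = c false) := by cases t <;> simp
      rw [if_pos e3, Finset.mem_singleton] at e1 e2
      rw [e1, e2]
    · have := congrFun h q
      simpa only [h1, if_false] using this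

omit hinj in
/-- The points of type `t`. -/
lemma exists_types : ∃ R : Bool → Finset Ω,
    (R true).card + (R false).card ≤ (RA φ).card ∧
    ∀ t, ∀ x : X → X, (∀ p, cl (x p) = t) → ∀ q, ¬ IsNull φ q → φ x q ∈ R t := by
  classical
  refine ⟨fun t => (RA φ).filter fun p => ∀ y, φ y p = eta φ p (y (c t)), ?_, ?_⟩
  · rw [← Finset.card_union_of_disjoint]
    · apply Finset.card_le_card
      intro p hp
      simp only [mem_union, mem_filter] at hp
      rcases hp with hp | hp
      · exact hp.1
      · exact hp.1
    · rw [Finset.disjoint_left]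
      intro p hp hp'
      simp only [mem_filter] at hp hp'
      have hn : ¬ IsNull φ p := by
        have := hp.1
        unfold RA at this
        exact (Finset.mem_filter.1 this).2
      apply hn
      intro u u'
      have h1 := hp.2 (fun r => if r = c true then u else u')
      have h2 := hp'.2 (fun r => if r = c true then u else u')
      rw [h1] at h2
      simpa [hc.symm] using h2
  · intro t x hx q hq
    simp only [mem_filter]
    refine ⟨?_, fun y => ?_⟩
    · unfold RA
      rw [Finset.mem_filter]
      exact ⟨mem_reach φ x q, fun h => hq ((isNull_act hφ x q).1 h)⟩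
    · rw [act_act hφ, eta_act hφ]
      unfold eta
      have e : y ∘ b ∘ x = fun _ => y (c t) := by
        funext r
        simp [hb, hx]
      rw [e]

lemma three_pow_le (S : Finset (X → Ω)) (f : (X → Ω) → ℕ) :
    (∏ η ∈ S, f η) ^ 3 ≤ 3 ^ (∑ η ∈ S, f η) := by
  classical
  induction S using Finset.induction_on with
  | empty => simp
  | insert a S ha ih =>
    rw [Finset.prod_insert ha, Finset.sum_insert ha, mul_pow, pow_add]
    refine Nat.mul_le_mul ?_ ih
    have key : ∀ k : ℕ, k ^ 3 ≤ 3 ^ k := by
      intro k
      rcases Nat.lt_or_ge k 3 with h | h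
      · interval_cases k <;> norm_num
      · induction k, h using Nat.le_induction with
        | base => norm_num
        | succ k hk ihk =>
          have : (k + 1) ^ 3 ≤ 3 * k ^ 3 := by nlinarith [sq_nonneg (k : ℤ), mul_self_nonneg (k - 3)]
          calc (k + 1) ^ 3 ≤ 3 * k ^ 3 := this
            _ ≤ 3 * 3 ^ k := by omega
            _ = 3 ^ (k + 1) := by ring
    exact key _

/-- The natural points are numerous. -/
lemma exists_natural : ∃ k : Bool → ℕ, k true + k false ≤ (RA φ).card ∧
    ∀ t, (univ.filter fun a => cl a = t).card ^ 3 ≤ 3 ^ k t := by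
  classical
  let H : Finset (X → Ω) := (univ.filter fun p => ¬ IsNull φ p).image (eta φ)
  have hH : ∀ η ∈ H, ∃ p, ¬ IsNull φ p ∧ eta φ p = η := by
    intro η hη
    obtain ⟨p, hp, rfl⟩ := Finset.mem_image.1 hη
    exact ⟨p, (Finset.mem_filter.1 hp).2, rfl⟩
  refine ⟨fun t => ∑ η ∈ H, ((univ.filter fun a => cl a = t).image η).card, ?_, ?_⟩
  · rw [← Finset.sum_add_distrib]
    have h1 : ∀ η ∈ H, ((univ.filter fun a => cl a = true).image η).card +
        ((univ.filter fun a => cl a = false).image η).card ≤ (univ.image η).card := by
      intro η hη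
      obtain ⟨p, hp, rfl⟩ := hH η hη
      rw [← Finset.card_union_of_disjoint]
      · apply Finset.card_le_card
        intro z hz
        simp only [mem_union, mem_image, mem_filter, mem_univ, true_and] at hz
        rcases hz with ⟨a, _, rfl⟩ | ⟨a, _, rfl⟩
        · exact Finset.mem_image_of_mem _ (Finset.mem_univ _)
        · exact Finset.mem_image_of_mem _ (Finset.mem_univ _)
      · rw [Finset.disjoint_left]
        intro z hz hz'
        simp only [mem_image, mem_filter, mem_univ, true_and] at hz hz'
        obtain ⟨a, ha, rfl⟩ := hz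
        obtain ⟨a', ha', h⟩ := hz'
        exact eta_ne hφ hb hc hp ha ha' h.symm
    refine (Finset.sum_le_sum h1).trans ?_
    rw [← Finset.card_biUnion]
    · apply Finset.card_le_card
      intro z hz
      obtain ⟨η, hη, hz⟩ := Finset.mem_biUnion.1 hz
      obtain ⟨p, hp, rfl⟩ := hH η hη
      obtain ⟨a, _, rfl⟩ := Finset.mem_image.1 hz
      unfold RA
      rw [Finset.mem_filter]
      exact ⟨mem_reach φ _ _, fun h => hp ((isNull_act hφ _ _).1 h)⟩
    · intro η hη η' hη' hne
      rw [Function.onFun, Finset.disjoint_left]
      intro z hz hz'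
      obtain ⟨p, hp, rfl⟩ := hH η hη
      obtain ⟨p', hp', rfl⟩ := hH η' hη'
      obtain ⟨a, _, rfl⟩ := Finset.mem_image.1 hz
      obtain ⟨a', _, h⟩ := Finset.mem_image.1 hz'
      apply hne
      rw [← eta_eta hφ p a, ← h, eta_eta hφ p' a']
  · intro t
    refine le_trans (Nat.pow_le_pow_left ?_ 3)
      (three_pow_le hφ hb hc hinj H fun η => ((univ.filter fun a => cl a = t).image η).card)
    rw [← Finset.prod_coe_sort]
    rw [← Fintype.card_piFinset]
    refine Finset.card_le_card_of_injOn (fun a (η : H) => η.1 a) ?_ ?_
    · intro a ha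
      rw [Finset.mem_coe, Fintype.mem_piFinset]
      intro η
      exact Finset.mem_image_of_mem _ ha
    · intro a _ a' _ h
      by_contra hne
      have h1 : (fun _ : X => a) ≠ fun _ => a' := by
        intro h2
        exact hne (congrFun h2 a)
      have h2 : ∃ p, φ (fun _ => a) p ≠ φ (fun _ => a') p := by
        by_contra h3
        push Not at h3
        exact h1 (hinj (funext h3))
      obtain ⟨p, hp⟩ := h2
      have hnull : ¬ IsNull φ p := fun h => hp (h a a')
      have hmem : eta φ p ∈ H :=
        Finset.mem_image_of_mem _ (Finset.mem_filter.2 ⟨Finset.mem_univ _, hnull⟩)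
      exact hp (congrFun h ⟨eta φ p, hmem⟩)

end Lower

end Pool.Agent.VarDeg
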