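import Mathlib

set_option autoImplicit false

namespace Pool.Agent.VarDeg

lemma num1 : ∀ N < 1533, N ^ (1532 - N) < 1024 ^ 1022 := by decide +kernel

lemma num2 : ∀ r < 785, r ^ (1568 - 2 * r) < 512 ^ 1022 := by decide +kernel

lemma num3 : 35 ^ 1568 < 512 ^ 1022 := by decide +kernel

lemma num4 : 1023 ^ 1021 ≤ 220 ^ 1312 := by decide +kernel

/-- The arithmetic of the lower bound. -/
lemma arith {NA NB fA fB r1 r2 k1 k2 : ℕ}
    (h1 : 1024 ^ 1022 ≤ NA ^ fA * NB ^ fB)
    (h2 : 512 ^ 1022 ≤ r1 ^ fA * NB ^ fB)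
    (h3 : 512 ^ 1022 ≤ r2 ^ fA * NB ^ fB)
    (h4 : r1 + r2 ≤ NA)
    (h5 : 512 ^ 3 ≤ 3 ^ k1) (h6 : 512 ^ 3 ≤ 3 ^ k2) (h7 : k1 + k2 ≤ NA) :
    1569 ≤ NA + NB + (fA + fB) := by
  have hk : ∀ k, 512 ^ 3 ≤ 3 ^ k → 18 ≤ k := by
    intro k hk
    by_contra h
    have : 3 ^ k ≤ 3 ^ 17 := Nat.pow_le_pow_right (by norm_num) (by omega)
    norm_num at hk this
    omega
  have hNA : 36 ≤ NA := by
    have := hk _ h5
    have := hk _ h6
    omega
  by_contra hlt
  push Not at hlt
  rcases le_or_gt NA NB with hle | hgt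
  · have e1 : NA ^ fA * NB ^ fB ≤ NB ^ (fA + fB) := by
      rw [pow_add]
      exact Nat.mul_le_mul_right _ (Nat.pow_le_pow_left hle _)
    have e2 : NB ^ (fA + fB) ≤ NB ^ (1532 - NB) :=
      Nat.pow_le_pow_right (by omega) (by omega)
    have e3 := num1 NB (by omega)
    exact absurd (h1.trans (e1.trans e2)) (not_le.2 e3)
  · rcases le_or_gt 36 NB with h36 | h36
    · have e1 : NA ^ fA * NB ^ fB ≤ NA ^ (fA + fB) := by
        rw [pow_add]
        exact Nat.mul_le_mul_left _ (Nat.pow_le_pow_left hgt.le _)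
      have e2 : NA ^ (fA + fB) ≤ NA ^ (1532 - NA) :=
        Nat.pow_le_pow_right (by omega) (by omega)
      have e3 := num1 NA (by omega)
      exact absurd (h1.trans (e1.trans e2)) (not_le.2 e3)
    · have key : ∀ r, 2 * r ≤ NA → 512 ^ 1022 ≤ r ^ fA * NB ^ fB → False := by
        intro r hr h
        rcases le_or_gt 35 r with hr35 | hr35
        · have e1 : r ^ fA * NB ^ fB ≤ r ^ (fA + fB) := by
            rw [pow_add]
            exact Nat.mul_le_mul_left _ (Nat.pow_le_pow_left (by omega) _)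
          have e2 : r ^ (fA + fB) ≤ r ^ (1568 - 2 * r) :=
            Nat.pow_le_pow_right (by omega) (by omega)
          have e3 := num2 r (by omega)
          exact absurd (h.trans (e1.trans e2)) (not_le.2 e3)
        · have e1 : r ^ fA * NB ^ fB ≤ 35 ^ (fA + fB) := by
            rw [pow_add]
            exact Nat.mul_le_mul (Nat.pow_le_pow_left (by omega) _)
              (Nat.pow_le_pow_left (by omega) _)
          have e2 : 35 ^ (fA + fB) ≤ 35 ^ 1568 :=
            Nat.pow_le_pow_right (by omega) (by omega)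
          exact absurd (h.trans (e1.trans e2)) (not_le.2 num3)
      rcases le_or_gt r1 r2 with h12 | h12
      · exact key r1 (by omega) h2
      · exact key r2 (by omega) h3

end Pool.Agent.VarDeg
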