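import Mathlib
import Pool.Agent.VarDeg.Defs
import Pool.Agent.VarDeg.Lower
import Pool.Agent.VarDeg.Num

set_option autoImplicit false

namespace Pool.Agent.VarDeg

open Finset

/-- The balanced map: `0, …, 511 ↦ 0` and `512, …, 1023 ↦ 1`. -/
def balanced : Fin 1024 → Fin 1024 := fun p => if p.val < 512 then 0 else 1

lemma card_class (t : Bool) :
    (univ.filter fun a : Fin 1024 => decide (a.val < 512) = t).card = 512 := by
  cases t
  · decide +kernel
  · decide +kernel

theorem lower_bound {m : ℕ} (h : VariantEmbeds 1024 balanced m) : 1569 ≤ m := by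
  classical
  obtain ⟨φ, hinj, hφ⟩ := h
  let c : Bool → Fin 1024 := fun t => if t then 0 else 1
  let cl : Fin 1024 → Bool := fun p => decide (p.val < 512)
  have hb : ∀ p, balanced p = c (cl p) := by
    intro p
    by_cases hp : p.val < 512 <;> simp [balanced, c, cl, hp]
  have hc : c true ≠ c false := by
    simp [c]
  obtain ⟨R, hR1, hR2⟩ := exists_types hφ hb hc
  obtain ⟨k, hk1, hk2⟩ := exists_natural hφ hb hc hinj
  have cap : ∀ t, 512 ^ 1022 ≤ (R t).card ^ (QA φ).card * (RB φ).card ^ (QB φ).card := by
    intro t
    have hne : ∃ v, v ∈ (univ.filter fun a : Fin 1024 => cl a = t) := by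
      by_contra hne
      push Not at hne
      have := Finset.eq_empty_of_forall_notMem hne
      have h2 := card_class t
      change (univ.filter fun a : Fin 1024 => cl a = t).card = 512 at h2
      rw [this] at h2
      simp at h2
    obtain ⟨v, hv⟩ := hne
    have := capacity hφ hb hc hinj _ hv (R t) (fun x hx q hq =>
      hR2 t x (fun p => (Finset.mem_filter.1 (hx p)).2) q hq)
    have h2 := card_class t
    change (univ.filter fun a : Fin 1024 => cl a = t).card = 512 at h2
    rw [h2, Fintype.card_fin] at this
    exact this
  have cap0 : 1024 ^ 1022 ≤ (RA φ).card ^ (QA φ).card * (RB φ).card ^ (QB φ).card := by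
    have := capacity hφ hb hc hinj univ (Finset.mem_univ (0 : Fin 1024)) (RA φ)
      (fun x _ q hq => by
        unfold RA
        rw [Finset.mem_filter]
        exact ⟨mem_reach φ x q, fun h => hq ((isNull_act hφ x q).1 h)⟩)
    rw [Finset.card_univ, Fintype.card_fin] at this
    exact this
  have htot := card_total φ
  rw [Fintype.card_fin] at htot
  rw [← htot]
  have e1 := hk2 true
  have e2 := hk2 false
  rw [show (univ.filter fun a : Fin 1024 => cl a = true).card = 512 from card_class true] at e1
  rw [show (univ.filter fun a : Fin 1024 => cl a = false).card = 512 from card_class false] at e2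
  exact arith cap0 (cap true) (cap false) hR1 e1 e2 hk1

end Pool.Agent.VarDeg
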