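import Mathlib

set_option autoImplicit false
set_option linter.unusedSectionVars false

namespace Pool.Agent.VarDeg

open Finset

section Code

variable {X β : Type} [Fintype X] [DecidableEq X] [DecidableEq β]
  (o i : X) (κ : X ↪ β) (star : β)

/-- the points different from `o` and `i` -/
def PP : Finset X := (univ.erase o).erase i

def A1 (B : Finset X) : Finset X := PP o i ∩ B

def A2 (B : Finset X) : Finset X := PP o i \ B

/-- the chosen block is the block of `o` -/
def gch (B : Finset X) : Prop :=
  if i ∈ B then A2 o i B = ∅ else (A2 o i B).card < (A1 o i B).card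

instance (B : Finset X) : Decidable (gch o i B) := by
  unfold gch; infer_instance

/-- the code of a block -/
def eps (B : Finset X) : Finset β :=
  if i ∈ B then
    (if (A2 o i B).card ≤ (A1 o i B).card + 1 then (A2 o i B).map κ
      else insert star ((A1 o i B).map κ))
  else (if (A2 o i B).card < (A1 o i B).card then (A2 o i B).map κ else (A1 o i B).map κ)

variable {o i κ star}

lemma eq_of_A1 {B B' : Finset X} (ho : o ∈ B) (ho' : o ∈ B') (hi : i ∈ B ↔ i ∈ B')
    (h : A1 o i B = A1 o i B') : B = B' := by
  ext p
  by_cases h1 : p = o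
  · subst h1; simp [ho, ho']
  by_cases h2 : p = i
  · subst h2; exact hi
  have := Finset.ext_iff.1 h p
  simp only [A1, PP, mem_inter, mem_erase, mem_univ, and_true] at this
  simpa [h1, h2] using this

lemma eq_of_A2 {B B' : Finset X} (ho : o ∈ B) (ho' : o ∈ B') (hi : i ∈ B ↔ i ∈ B')
    (h : A2 o i B = A2 o i B') : B = B' := by
  ext p
  by_cases h1 : p = o
  · subst h1; simp [ho, ho']
  by_cases h2 : p = i
  · subst h2; exact hi
  have := Finset.ext_iff.1 h p
  simp only [A2, PP, mem_sdiff, mem_erase, mem_univ, and_true] at this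
  simp only [ne_eq, h1, h2, not_false_eq_true, true_and] at this
  exact not_iff_not.1 this

lemma code_inj (hstar : ∀ p, κ p ≠ star) {B B' : Finset X} (ho : o ∈ B) (ho' : o ∈ B')
    (hi : i ∈ B ↔ i ∈ B') (hg : gch o i B ↔ gch o i B')
    (he : eps o i κ star B = eps o i κ star B') : B = B' := by
  have hs : ∀ A : Finset X, star ∉ A.map κ := by
    intro A h
    obtain ⟨p, _, hp⟩ := Finset.mem_map.1 h
    exact hstar p hp
  unfold eps at he
  by_cases h1 : i ∈ B
  · have h1' := hi.1 h1
    rw [if_pos h1, if_pos h1'] at he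
    split_ifs at he with h2 h3 h3
    · exact eq_of_A2 ho ho' hi (Finset.map_injective κ he)
    · exact absurd (he ▸ Finset.mem_insert_self _ _) (hs _)
    · exact absurd (he ▸ Finset.mem_insert_self _ _) (hs _)
    · refine eq_of_A1 ho ho' hi (Finset.map_injective κ ?_)
      have := congrArg (fun s => s.erase star) he
      simpa only [Finset.erase_insert (hs _)] using this
  · have h1' := fun h => h1 (hi.2 h)
    unfold gch at hg
    rw [if_neg h1, if_neg h1'] at he hg
    by_cases h2 : (A2 o i B).card < (A1 o i B).card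
    · rw [if_pos h2, if_pos (hg.1 h2)] at he
      exact eq_of_A2 ho ho' hi (Finset.map_injective κ he)
    · rw [if_neg h2, if_neg (fun h => h2 (hg.2 h))] at he
      exact eq_of_A1 ho ho' hi (Finset.map_injective κ he)

lemma gch_univ : gch o i (univ : Finset X) := by
  unfold gch
  simp [A2]

lemma eps_univ : eps o i κ star (univ : Finset X) = ∅ := by
  have h : A2 o i (univ : Finset X) = ∅ := by
    unfold A2
    exact Finset.sdiff_eq_empty_iff_subset.2 (Finset.subset_univ _)
  unfold eps
  rw [h]
  simp

lemma card_A (hoi : o ≠ i) (B : Finset X) :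
    (A1 o i B).card + (A2 o i B).card = Fintype.card X - 2 := by
  unfold A1 A2
  rw [Finset.card_inter_add_card_sdiff]
  unfold PP
  rw [Finset.card_erase_of_mem (by simp [hoi.symm]), Finset.card_erase_of_mem (by simp),
    Finset.card_univ]
  omega

/-- the block of `o` of a function -/
def blk {Y : Type} [DecidableEq Y] (h : X → Y) (o : X) : Finset X :=
  univ.filter fun p => h p = h o

lemma mem_blk {Y : Type} [DecidableEq Y] (h : X → Y) (p : X) : p ∈ blk h o ↔ h p = h o := by
  unfold blk
  rw [Finset.mem_filter]
  exact ⟨fun hp => hp.2, fun hp => ⟨Finset.mem_univ _, hp⟩⟩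

lemma bool_eq : ∀ a b c : Bool, a ≠ c → b ≠ c → a = b := by decide

lemma bool_not : ∀ a c : Bool, a ≠ c → a = !c := by decide

lemma o_mem_blk {Y : Type} [DecidableEq Y] (h : X → Y) : o ∈ blk h o := by
  simp [blk]

/-- capacity -/
lemma capacity_ineq (hoi : o ≠ i) {s d b : ℕ} (hs1 : 1 ≤ s) (hs : s ≤ Fintype.card X - 1)
    (hd : Fintype.card X - 1 ≤ d) (hn : 3 ≤ Fintype.card X)
    (hcap : (Fintype.card X - 1) ^ (Fintype.card X - 3) ≤ s ^ (b - 1))
    (w : X → Bool) (hb : (eps o i κ star (blk w o)).card ≤ b) (hb1 : 1 ≤ b) :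
    (Fintype.card X - 1) ^ ((PP o i).filter fun p => w p = true).card ≤
      (if (if gch o i (blk w o) then w o else !(w o)) = true then d else 1) *
        s ^ (b - (eps o i κ star (blk w o)).card) := by
  classical
  set n := Fintype.card X with hn'
  have hcard := card_A (X := X) hoi (blk w o)
  rw [← hn'] at hcard
  -- main estimates
  have E1 : ∀ k, 1 ≤ k → k ≤ b → k ≤ n - 2 → (n - 1) ^ (n - 2 - k) ≤ s ^ (b - k) := by
    intro k hk hkb hkn
    have h1 : s ^ (b - k) * s ^ (k - 1) = s ^ (b - 1) := by
      rw [← pow_add]; congr 1; omega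
    have h2 : (n - 1) ^ (n - 2 - k) * (n - 1) ^ (k - 1) = (n - 1) ^ (n - 3) := by
      rw [← pow_add]; congr 1; omega
    have h3 : (n - 1) ^ (n - 2 - k) * s ^ (k - 1) ≤ s ^ (b - k) * s ^ (k - 1) := by
      calc (n - 1) ^ (n - 2 - k) * s ^ (k - 1)
          ≤ (n - 1) ^ (n - 2 - k) * (n - 1) ^ (k - 1) :=
            Nat.mul_le_mul_left _ (Nat.pow_le_pow_left hs _)
        _ = (n - 1) ^ (n - 3) := h2
        _ ≤ s ^ (b - 1) := hcap
        _ = s ^ (b - k) * s ^ (k - 1) := h1.symm
    exact Nat.le_of_mul_le_mul_right h3 (by positivity)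
  have E2 : ∀ k, 1 ≤ k → k ≤ b → k ≤ n - 1 → (n - 1) ^ (n - 1 - k) ≤ d * s ^ (b - k) := by
    intro k hk hkb hkn
    rcases Nat.lt_or_ge k (n - 1) with h | h
    · calc (n - 1) ^ (n - 1 - k) = (n - 1) * (n - 1) ^ (n - 2 - k) := by
            rw [← pow_succ']; congr 1; omega
        _ ≤ d * s ^ (b - k) := Nat.mul_le_mul hd (E1 k hk hkb (by omega))
    · have : n - 1 - k = 0 := by omega
      rw [this, pow_zero]
      exact Nat.mul_pos (by omega) (Nat.pow_pos hs1)
  have E3 : (n - 1) ^ (n - 2) ≤ d * s ^ b := by
    calc (n - 1) ^ (n - 2) = (n - 1) * (n - 1) ^ (n - 3) := by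
          rw [← pow_succ']; congr 1; omega
      _ ≤ d * s ^ (b - 1) := Nat.mul_le_mul hd hcap
      _ ≤ d * s ^ b := Nat.mul_le_mul_left _ (Nat.pow_le_pow_right hs1 (by omega))
  have P1 : ∀ t, t ≤ n - 2 → (n - 1) ^ t ≤ (n - 1) ^ (n - 2) := fun t ht =>
    Nat.pow_le_pow_right (by omega) ht
  -- cardinality of the true part
  have hT : ((PP o i).filter fun p => w p = true).card =
      if w o = true then (A1 o i (blk w o)).card else (A2 o i (blk w o)).card := by
    split_ifs with h
    · congr 1
      ext p
      simp [A1, blk, h]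
    · congr 1
      ext p
      have h' : w o = false := by simpa using h
      simp only [A2, blk, mem_filter, mem_sdiff, mem_univ, true_and, h']
      simp
  rw [hT]
  set a1 := (A1 o i (blk w o)).card with ha1
  set a2 := (A2 o i (blk w o)).card with ha2
  have hmap1 : ((A1 o i (blk w o)).map κ).card = a1 := Finset.card_map _
  have hmap2 : ((A2 o i (blk w o)).map κ).card = a2 := Finset.card_map _
  have hins : (insert star ((A1 o i (blk w o)).map κ)).card ≤ a1 + 1 := by
    rw [← hmap1]; exact Finset.card_insert_le _ _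
  have hins1 : 1 ≤ (insert star ((A1 o i (blk w o)).map κ)).card :=
    Finset.card_pos.2 ⟨star, Finset.mem_insert_self _ _⟩
  set e := (eps o i κ star (blk w o)).card with he
  by_cases hi : i ∈ blk w o
  · by_cases h2 : A2 o i (blk w o) = ∅
    · -- constant pattern
      have hg : gch o i (blk w o) := by unfold gch; rw [if_pos hi]; exact h2
      have ha20 : a2 = 0 := by rw [ha2, h2]; simp
      have he0 : e = 0 := by
        rw [he]; unfold eps; rw [if_pos hi, if_pos (by omega), hmap2, ha20]
      rw [he0, if_pos hg, Nat.sub_zero]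
      by_cases hw : w o = true
      · rw [if_pos hw, if_pos hw]
        exact (P1 _ (by omega)).trans E3
      · rw [if_neg hw, if_neg hw, ha20, pow_zero, one_mul]
        exact Nat.pow_pos hs1
    · have hg : ¬ gch o i (blk w o) := by unfold gch; rw [if_pos hi]; exact h2
      have ha2p : 1 ≤ a2 := Finset.card_pos.2 (Finset.nonempty_iff_ne_empty.2 h2)
      have hee : 1 ≤ e ∧ e ≤ a1 + 1 ∧ e ≤ a2 := by
        rw [he]; unfold eps; rw [if_pos hi]
        split_ifs with h3
        · rw [hmap2]; exact ⟨ha2p, h3, le_rfl⟩
        · exact ⟨hins1, hins, by omega⟩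
      rw [if_neg hg]
      by_cases hw : w o = true
      · have : ((!(w o)) = true) = False := by simp [hw]
        rw [if_pos hw, if_neg (by rw [this]; exact not_false), one_mul]
        refine le_trans ?_ (E1 e hee.1 hb (by omega))
        exact Nat.pow_le_pow_right (by omega) (by omega)
      · have : ((!(w o)) = true) := by simpa using hw
        rw [if_neg hw, if_pos this]
        refine le_trans ?_ (E2 e hee.1 hb (by omega))
        exact Nat.pow_le_pow_right (by omega) (by omega)
  · by_cases h2 : a2 < a1
    · have hg : gch o i (blk w o) := by unfold gch; rw [if_neg hi]; exact h2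
      have hee : e = a2 := by
        rw [he]; unfold eps; rw [if_neg hi, if_pos h2, hmap2]
      rw [if_pos hg]
      by_cases hw : w o = true
      · rw [if_pos hw, if_pos hw]
        rcases Nat.eq_zero_or_pos e with h0 | h0
        · rw [h0, Nat.sub_zero]
          exact (P1 _ (by omega)).trans E3
        · refine le_trans ?_ (E2 e h0 hb (by omega))
          exact Nat.pow_le_pow_right (by omega) (by omega)
      · rw [if_neg hw, if_neg hw, one_mul]
        rcases Nat.eq_zero_or_pos e with h0 | h0
        · rw [← hee, h0, pow_zero]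
          exact Nat.pow_pos hs1
        · refine le_trans ?_ (E1 e h0 hb (by omega))
          exact Nat.pow_le_pow_right (by omega) (by omega)
    · have hg : ¬ gch o i (blk w o) := by unfold gch; rw [if_neg hi]; exact h2
      have hee : e = a1 := by
        rw [he]; unfold eps; rw [if_neg hi, if_neg h2, hmap1]
      rw [if_neg hg]
      by_cases hw : w o = true
      · have : ((!(w o)) = true) = False := by simp [hw]
        rw [if_pos hw, if_neg (by rw [this]; exact not_false), one_mul]
        rcases Nat.eq_zero_or_pos e with h0 | h0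
        · rw [← hee, h0, pow_zero]
          exact Nat.pow_pos hs1
        · refine le_trans ?_ (E1 e h0 hb (by omega))
          exact Nat.pow_le_pow_right (by omega) (by omega)
      · have : ((!(w o)) = true) := by simpa using hw
        rw [if_neg hw, if_pos this]
        rcases Nat.eq_zero_or_pos e with h0 | h0
        · rw [h0, Nat.sub_zero]
          exact (P1 _ (by omega)).trans E3
        · refine le_trans ?_ (E2 e h0 hb (by omega))
          exact Nat.pow_le_pow_right (by omega) (by omega)

end Code

end Pool.Agent.VarDeg
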