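import Mathlib
import Pool.Agent.VarDeg.Code

set_option autoImplicit false
set_option linter.unusedSectionVars false

namespace Pool.Agent.VarDeg

open Finset

/-- Extension of an injective partial assignment. -/
lemma exists_extension {α γ : Type*} [DecidableEq α] [DecidableEq γ] (F L : Finset α)
    (T : Finset γ) (f0 : α → γ) (hL : L ⊆ F) (hT : ∀ x ∈ L, f0 x ∈ T)
    (hinj : Set.InjOn f0 L) (hcard : F.card ≤ T.card) :
    ∃ f : α → γ, (∀ x ∈ F, f x ∈ T) ∧ Set.InjOn f F ∧ ∀ x ∈ L, f x = f0 x := by
  classical
  have h1 : (F \ L).card ≤ (T \ L.image f0).card := by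
    rw [Finset.card_sdiff_of_subset hL, Finset.card_sdiff_of_subset, Finset.card_image_of_injOn hinj]
    · omega
    · intro y hy
      obtain ⟨x, hx, rfl⟩ := Finset.mem_image.1 hy
      exact hT x hx
  have h2 : Fintype.card ↥(F \ L) ≤ Fintype.card ↥(T \ L.image f0) := by
    simpa only [Fintype.card_coe] using h1
  obtain ⟨g⟩ := Function.Embedding.nonempty_of_card_le h2
  refine ⟨fun x => if h : x ∈ F \ L then (g ⟨x, h⟩ : γ) else f0 x, ?_, ?_, ?_⟩
  · intro x hx
    by_cases h : x ∈ F \ L
    · simp only [h, dif_pos]
      exact (Finset.mem_sdiff.1 (g ⟨x, h⟩).2).1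
    · simp only [h, dif_neg, not_false_eq_true]
      refine hT x ?_
      by_contra hxL
      exact h (Finset.mem_sdiff.2 ⟨hx, hxL⟩)
  · intro x hx y hy hxy
    have key : ∀ u ∈ F, u ∉ F \ L → u ∈ L := by
      intro u hu hu'
      by_contra hxL
      exact hu' (Finset.mem_sdiff.2 ⟨hu, hxL⟩)
    by_cases h : x ∈ F \ L <;> by_cases h' : y ∈ F \ L
    · simp only [h, h', dif_pos] at hxy
      have := g.injective (Subtype.ext hxy)
      exact congrArg Subtype.val this
    · simp only [h, h', dif_pos, dif_neg, not_false_eq_true] at hxy
      exfalso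
      have := (Finset.mem_sdiff.1 (g ⟨x, h⟩).2).2
      rw [hxy] at this
      exact this (Finset.mem_image_of_mem _ (key y hy h'))
    · simp only [h, h', dif_pos, dif_neg, not_false_eq_true] at hxy
      exfalso
      have := (Finset.mem_sdiff.1 (g ⟨y, h'⟩).2).2
      rw [← hxy] at this
      exact this (Finset.mem_image_of_mem _ (key x hx h))
    · simp only [h, h', dif_neg, not_false_eq_true] at hxy
      exact hinj (key x hx h) (key y hy h') hxy
  · intro x hx
    have h : x ∉ F \ L := fun h => (Finset.mem_sdiff.1 h).2 hx
    simp only [h, dif_neg, not_false_eq_true]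

section Upper

variable {X J D S β : Type} [Fintype X] [DecidableEq X] [Fintype J] [DecidableEq J]
  [Fintype D] [DecidableEq D] [Fintype S] [DecidableEq S] [Fintype β] [DecidableEq β]
  (o i : X) (κ : X ↪ β) (star : β) (z0 z1 : S) (η : X → J → Option D)

/-- the pattern of a map: which points do not go to `o` -/
def zp (x : X → X) : X → Bool := fun p => decide (x p ≠ o)

def cls (x : X → X) : Bool :=
  if gch o i (blk (zp o x) o) then zp o x o else !(zp o x o)

/-- rank at most two -/
def Low (x : X → X) : Prop := ∀ p q, x p ≠ x o → x q ≠ x o → x p = x q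

open Classical in
noncomputable def other (x : X → X) : X := if h : ∃ p, x p ≠ x o then x h.choose else x o

def theta (u v : X) : S ⊕ Unit :=
  if u = v then Sum.inl z0 else if u = o ∨ v = o then Sum.inr () else Sum.inl z1

open Classical in
noncomputable def fN (x : X → X) : J → Option D :=
  η (if gch o i (blk x o) then x o else other o x)

open Classical in
noncomputable def fU (x : X → X) : β → S ⊕ Unit := fun q =>
  if q ∈ eps o i κ star (blk x o) then theta o z0 z1 (x o) (other o x) else Sum.inl z0

/-- the unbalanced map -/
def unb : X → X := fun p => if p = o then o else i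

variable {o i κ star z0 z1 η}

lemma theta_comm (u v : X) : theta o z0 z1 u v = theta o z0 z1 v u := by
  unfold theta
  by_cases h : u = v
  · subst h; rfl
  · have h' : ¬ v = u := fun h' => h h'.symm
    simp only [h, h', if_false, or_comm]

lemma other_spec {x : X → X} (h : ∃ p, x p ≠ x o) : other o x ≠ x o := by
  unfold other
  rw [dif_pos h]
  exact h.choose_spec

lemma other_eq {x : X → X} (hx : Low o x) {p : X} (hp : x p ≠ x o) : x p = other o x := by
  have h : ∃ p, x p ≠ x o := ⟨p, hp⟩
  have h2 : other o x = x h.choose := by
    unfold other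
    rw [dif_pos h]
  rw [h2]
  exact hx _ _ hp h.choose_spec

lemma exists_other {x : X → X} (h : ∃ p, x p ≠ x o) : ∃ p, other o x = x p := by
  refine ⟨h.choose, ?_⟩
  unfold other
  rw [dif_pos h]

lemma blk_eq_univ_iff {Y : Type} [DecidableEq Y] (h : X → Y) :
    blk h o = univ ↔ ∀ p, h p = h o := by
  unfold blk
  rw [Finset.filter_eq_self]
  simp

/-- The product rule for forced readings. -/
lemma prod_rule (x y : X → X) :
    Low o (y ∘ unb o i ∘ x) ∧
    fN o i η (y ∘ unb o i ∘ x) = η (y (if cls o i x = true then i else o)) ∧
    fU o i κ star z0 z1 (y ∘ unb o i ∘ x) = fun q =>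
      if q ∈ eps o i κ star (blk (zp o x) o) then theta o z0 z1 (y o) (y i) else Sum.inl z0 := by
  classical
  set u : Bool → X := fun t => if t then y i else y o with hu
  have hz : y ∘ unb o i ∘ x = u ∘ zp o x := by
    funext p
    simp only [Function.comp, unb, zp, hu]
    by_cases h : x p = o <;> simp [h]
  rw [hz]
  have hucls : y (if cls o i x = true then i else o) = u (cls o i x) := by
    simp only [hu]
    split_ifs <;> rfl
  rw [hucls]
  by_cases hy : y o = y i
  · have hconst : ∀ t, u t = y o := by
      intro t; simp only [hu]; split_ifs <;> simp [hy]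
    have hzc : ∀ p, (u ∘ zp o x) p = y o := fun p => hconst _
    have hB : blk (u ∘ zp o x) o = univ := by
      rw [blk_eq_univ_iff]; intro p; rw [hzc, hzc]
    refine ⟨?_, ?_, ?_⟩
    · intro p q _ _
      rw [hzc, hzc]
    · unfold fN
      rw [hB, if_pos gch_univ, hzc, hconst]
    · funext q
      unfold fU
      rw [hB, eps_univ]
      simp only [notMem_empty, if_false]
      unfold theta
      rw [if_pos hy]
      simp
  · have huinj : ∀ s t, u s = u t → s = t := by
      intro s t hst
      by_contra hne
      cases s <;> cases t
      · exact hne rfl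
      · exact hy hst
      · exact hy hst.symm
      · exact hne rfl
    have hB : blk (u ∘ zp o x) o = blk (zp o x) o := by
      ext p
      rw [mem_blk, mem_blk]
      exact ⟨fun h => huinj _ _ h, fun h => congrArg u h⟩
    have hlow : Low o (u ∘ zp o x) := by
      intro p q hp hq
      simp only [Function.comp] at hp hq ⊢
      have h1 : zp o x p ≠ zp o x o := fun h => hp (by rw [h])
      have h2 : zp o x q ≠ zp o x o := fun h => hq (by rw [h])
      rw [bool_eq _ _ _ h1 h2]
    have hoth : blk (zp o x) o ≠ univ → other o (u ∘ zp o x) = u (!(zp o x o)) := by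
      intro hne
      have hex : ∃ p, (u ∘ zp o x) p ≠ (u ∘ zp o x) o := by
        by_contra hcon
        push Not at hcon
        apply hne
        rw [← hB]
        exact (blk_eq_univ_iff _).2 hcon
      obtain ⟨p, hp⟩ := hex
      rw [← other_eq hlow hp]
      have h1 : zp o x p ≠ zp o x o := fun h => hp (by simp only [Function.comp]; rw [h])
      simp only [Function.comp]
      rw [bool_not _ _ h1]
    refine ⟨hlow, ?_, ?_⟩
    · unfold fN cls
      rw [hB]
      by_cases hg : gch o i (blk (zp o x) o)
      · rw [if_pos hg, if_pos hg]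
        rfl
      · rw [if_neg hg, if_neg hg, hoth]
        intro h
        rw [h] at hg
        exact hg gch_univ
    · funext q
      unfold fU
      rw [hB]
      by_cases hq : q ∈ eps o i κ star (blk (zp o x) o)
      · rw [if_pos hq, if_pos hq, hoth]
        · simp only [Function.comp, hu]
          cases zp o x o
          · rfl
          · exact theta_comm _ _
        · intro h
          rw [h, eps_univ] at hq
          simp at hq
      · rw [if_neg hq, if_neg hq]

variable (hη : ∀ p j, (η p j).isSome = decide (p ≠ o)) (hηinj : Function.Injective η)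
  (hz : z0 ≠ z1)

include hη in
/-- Forced readings are type-correct. -/
lemma forced_type (x : X → X) (hx : Low o x) :
    (∀ j, (fN o i η x j).isSome = cls o i x) ∧
    ∀ q, fU o i κ star z0 z1 x q = Sum.inr () ↔ q ∈ eps o i κ star (blk (zp o x) o) := by
  classical
  by_cases hc : ∀ p, x p = x o
  · have hB : blk x o = univ := (blk_eq_univ_iff _).2 hc
    have hB' : blk (zp o x) o = univ := (blk_eq_univ_iff _).2 (fun p => by simp only [zp, hc])
    refine ⟨fun j => ?_, fun q => ?_⟩
    · unfold fN cls
      rw [hB, hB', if_pos gch_univ, if_pos gch_univ, hη]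
      rfl
    · unfold fU
      rw [hB, hB', eps_univ]
      simp
  · push Not at hc
    have hoth := other_spec hc
    obtain ⟨p0, hp0⟩ := exists_other hc
    by_cases h1 : x o ≠ o ∧ other o x ≠ o
    · have hall : ∀ p, x p ≠ o := by
        intro p
        by_cases h : x p = x o
        · rw [h]; exact h1.1
        · rw [other_eq hx h]; exact h1.2
      have hB' : blk (zp o x) o = univ :=
        (blk_eq_univ_iff _).2 (fun p => by simp only [zp]; simp [hall])
      refine ⟨fun j => ?_, fun q => ?_⟩
      · unfold fN cls
        rw [hB', if_pos gch_univ, hη]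
        simp only [zp]
        split_ifs
        · rfl
        · simp [h1.1, h1.2]
      · unfold fU
        rw [hB', eps_univ]
        simp only [notMem_empty, iff_false]
        split_ifs
        · unfold theta
          rw [if_neg hoth.symm, if_neg (by simp only [not_or]; exact ⟨h1.1, h1.2⟩)]
          simp
        · simp
    · have h2 : (x o = o ∧ other o x ≠ o) ∨ (x o ≠ o ∧ other o x = o) := by
        by_cases h3 : x o = o
        · left; exact ⟨h3, fun h => hoth (h.trans h3.symm)⟩
        · right
          refine ⟨h3, ?_⟩
          by_contra h4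
          exact h1 ⟨h3, h4⟩
      have hB : blk (zp o x) o = blk x o := by
        ext p
        rw [mem_blk, mem_blk]
        simp only [zp]
        constructor
        · intro h
          by_contra hne
          rw [other_eq hx hne] at h
          rcases h2 with ⟨h3, h4⟩ | ⟨h3, h4⟩ <;> simp [h3, h4] at h
        · intro h
          simp [h]
      refine ⟨fun j => ?_, fun q => ?_⟩
      · unfold fN cls
        rw [hB, hη]
        split_ifs with hg
        · rfl
        · simp only [zp]
          rcases h2 with ⟨h3, h4⟩ | ⟨h3, h4⟩ <;> simp [h3, h4]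
      · unfold fU
        rw [hB]
        split_ifs with hq
        · simp only [hq, iff_true]
          unfold theta
          rw [if_neg hoth.symm, if_pos (by rcases h2 with h | h <;> simp [h])]
        · simp [hq]

lemma A2_nonempty {B : Finset X} (ho : o ∈ B) (hi : i ∈ B) {p : X} (hp : p ∉ B) :
    A2 o i B ≠ ∅ := by
  intro h
  have : p ∈ A2 o i B := by
    unfold A2 PP
    simp only [mem_sdiff, mem_erase, mem_univ, and_true]
    exact ⟨⟨fun h1 => hp (h1 ▸ hi), fun h1 => hp (h1 ▸ ho)⟩, hp⟩
  rw [h] at this
  simp at this

lemma not_gch {B : Finset X} (ho : o ∈ B) (hi : i ∈ B) {p : X} (hp : p ∉ B) :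
    ¬ gch o i B := by
  unfold gch
  rw [if_pos hi]
  exact A2_nonempty ho hi hp

lemma gch_iff_eps {B : Finset X} (hi : i ∈ B) :
    gch o i B ↔ eps o i κ star B = ∅ := by
  unfold gch eps
  rw [if_pos hi, if_pos hi]
  constructor
  · intro h
    rw [h]
    simp
  · intro h
    split_ifs at h with h1
    · exact Finset.map_eq_empty.1 h
    · exact absurd h (Finset.insert_ne_empty _ _)

include hηinj hz in
/-- Forced readings separate maps with the same pattern and the same values at `o`, `i`. -/
lemma forced_inj (hstar : ∀ p, κ p ≠ star) {x x' : X → X} (hx : Low o x) (hx' : Low o x')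
    (hw : zp o x = zp o x') (h0 : x o = x' o) (h1 : x i = x' i)
    (hN : fN o i η x = fN o i η x')
    (hU : fU o i κ star z0 z1 x = fU o i κ star z0 z1 x') : x = x' := by
  classical
  have hc := hηinj hN
  have hzero : ∀ p, x p = o ↔ x' p = o := by
    intro p
    have := congrFun hw p
    simp only [zp, decide_eq_decide] at this
    exact not_iff_not.1 this
  have oB : o ∈ blk x o := o_mem_blk x
  have oB' : o ∈ blk x' o := o_mem_blk x'
  have hiB : i ∈ blk x o ↔ i ∈ blk x' o := by
    rw [mem_blk, mem_blk, h1, h0]
  by_cases hA : ∀ p, x p ≠ o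
  · have hA' : ∀ p, x' p ≠ o := fun p h => hA p ((hzero p).2 h)
    have key : ∀ y : X → X, Low o y → (∀ p, y p ≠ o) → ∀ q,
        fU o i κ star z0 z1 y q = Sum.inl z1 ↔ q ∈ eps o i κ star (blk y o) := by
      intro y hy hyo q
      unfold fU
      split_ifs with hq
      · simp only [hq, iff_true]
        have hex : ∃ p, y p ≠ y o := by
          by_contra hcon
          push Not at hcon
          rw [(blk_eq_univ_iff y).2 hcon, eps_univ] at hq
          simp at hq
        have h2 := other_spec hex
        obtain ⟨p, hp⟩ := exists_other hex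
        unfold theta
        rw [if_neg h2.symm, if_neg]
        simp only [not_or]
        exact ⟨hyo o, by rw [hp]; exact hyo p⟩
      · simp only [hq, iff_false]
        intro h
        exact hz (Sum.inl_injective h)
    have heps : eps o i κ star (blk x o) = eps o i κ star (blk x' o) := by
      ext q
      rw [← key x hx hA q, ← key x' hx' hA' q, hU]
    have hg : gch o i (blk x o) ↔ gch o i (blk x' o) := by
      by_cases hi : i ∈ blk x o
      · rw [gch_iff_eps (κ := κ) (star := star) hi,
          gch_iff_eps (κ := κ) (star := star) (hiB.1 hi), heps]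
      · have hi' : i ∉ blk x' o := fun h => hi (hiB.2 h)
        rw [mem_blk] at hi hi'
        have e1 := other_eq hx hi
        have e2 := other_eq hx' hi'
        rw [← e1, ← e2, ← h1, ← h0] at hc
        constructor
        · intro h
          by_contra h'
          rw [if_pos h, if_neg h'] at hc
          exact hi hc.symm
        · intro h
          by_contra h'
          rw [if_neg h', if_pos h] at hc
          exact hi hc
    have hB : blk x o = blk x' o := code_inj hstar oB oB' hiB hg heps
    funext p
    by_cases hp : p ∈ blk x o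
    · have hp' := hp
      rw [hB] at hp'
      rw [mem_blk] at hp hp'
      rw [hp, hp', h0]
    · have hp' := hp
      rw [hB] at hp'
      have e3 : x p = other o x := other_eq hx (by rwa [mem_blk] at hp)
      have e4 : x' p = other o x' := other_eq hx' (by rwa [mem_blk] at hp')
      rw [e3, e4]
      by_cases hi : i ∈ blk x o
      · have h2 := not_gch oB hi hp
        have h3 : ¬ gch o i (blk x' o) := fun h => h2 (hg.2 h)
        rw [if_neg h2, if_neg h3] at hc
        exact hc
      · have hi' : i ∉ blk x' o := fun h => hi (hiB.2 h)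
        rw [mem_blk] at hi hi'
        rw [← other_eq hx hi, ← other_eq hx' hi', h1]
  · push Not at hA
    obtain ⟨p0, hp0⟩ := hA
    by_cases hxo : x o = o
    · have hxo' : x' o = o := by rw [← h0]; exact hxo
      funext p
      by_cases hp : x p = o
      · rw [hp, (hzero p).1 hp]
      · have hp' : x' p ≠ o := fun h => hp ((hzero p).2 h)
        have e3 : x p ≠ x o := by rw [hxo]; exact hp
        have e4 : x' p ≠ x' o := by rw [hxo']; exact hp'
        rw [other_eq hx e3, other_eq hx' e4]
        by_cases hi : i ∈ blk x o
        · have h2 := not_gch oB hi (p := p) (by rw [mem_blk]; exact e3)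
          have h3 := not_gch oB' (hiB.1 hi) (p := p) (by rw [mem_blk]; exact e4)
          rw [if_neg h2, if_neg h3] at hc
          exact hc
        · have hi' : i ∉ blk x' o := fun h => hi (hiB.2 h)
          rw [mem_blk] at hi hi'
          rw [← other_eq hx hi, ← other_eq hx' hi', h1]
    · have hxo' : x' o ≠ o := by rw [← h0]; exact hxo
      have hp0' : x' p0 = o := (hzero p0).1 hp0
      have e1 : other o x = o := by
        rw [← other_eq hx (p := p0) (by rw [hp0]; exact fun h => hxo h.symm), hp0]
      have e2 : other o x' = o := by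
        rw [← other_eq hx' (p := p0) (by rw [hp0']; exact fun h => hxo' h.symm), hp0']
      funext p
      by_cases hp : x p = o
      · rw [hp, (hzero p).1 hp]
      · have hp' : x' p ≠ o := fun h => hp ((hzero p).2 h)
        have e3 : x p = x o := by
          by_contra h
          exact hp ((other_eq hx h).trans e1)
        have e4 : x' p = x' o := by
          by_contra h
          exact hp' ((other_eq hx' h).trans e2)
        rw [e3, e4, h0]

variable (o i κ star) in
/-- class of a pattern -/
def clw (w : X → Bool) : Bool := if gch o i (blk w o) then w o else !(w o)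

include hη hηinj hz in
/-- Readings on a fibre. -/
lemma exists_reading (hstar : ∀ p, κ p ≠ star) (hoi : o ≠ i) (hn : 3 ≤ Fintype.card X)
    (hs : Fintype.card S ≤ Fintype.card X - 1)
    (hd : Fintype.card X - 1 ≤ Fintype.card D ^ Fintype.card J)
    (hcap : (Fintype.card X - 1) ^ (Fintype.card X - 3) ≤
      Fintype.card S ^ (Fintype.card β - 1))
    (w : X → Bool) (v0 v1 : X) :
    ∃ f : (X → X) → (J → Option D) × (β → S ⊕ Unit),
      (∀ x, zp o x = w → x o = v0 → x i = v1 →
        (∀ j, ((f x).1 j).isSome = clw o i w) ∧
        ∀ q, (f x).2 q = Sum.inr () ↔ q ∈ eps o i κ star (blk w o)) ∧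
      (∀ x x', zp o x = w → x o = v0 → x i = v1 → zp o x' = w → x' o = v0 → x' i = v1 →
        f x = f x' → x = x') ∧
      ∀ x, zp o x = w → x o = v0 → x i = v1 → Low o x →
        f x = (fN o i η x, fU o i κ star z0 z1 x) := by
  classical
  let F : Finset (X → X) := univ.filter fun x => zp o x = w ∧ x o = v0 ∧ x i = v1
  let L : Finset (X → X) := F.filter fun x => Low o x
  let T1 : Finset (J → Option D) := Fintype.piFinset fun _ =>
    if clw o i w = true then univ.image some else {none}
  let T2 : Finset (β → S ⊕ Unit) := Fintype.piFinset fun q =>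
    if q ∈ eps o i κ star (blk w o) then {Sum.inr ()} else univ.image Sum.inl
  have hT1 : T1.card = if clw o i w = true then Fintype.card D ^ Fintype.card J else 1 := by
    rw [Fintype.card_piFinset]
    by_cases h : clw o i w = true
    · simp only [h, if_true]
      rw [Finset.prod_const, Finset.card_image_of_injective _ (Option.some_injective _),
        Finset.card_univ, Finset.card_univ]
    · simp only [h]
      simp
  have hT2 : T2.card = Fintype.card S ^ (Fintype.card β - (eps o i κ star (blk w o)).card) := by
    rw [Fintype.card_piFinset]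
    have : ∀ q : β, (if q ∈ eps o i κ star (blk w o) then ({Sum.inr ()} : Finset (S ⊕ Unit))
        else univ.image Sum.inl).card =
        if q ∈ eps o i κ star (blk w o) then 1 else Fintype.card S := by
      intro q
      split_ifs
      · simp
      · rw [Finset.card_image_of_injective _ Sum.inl_injective, Finset.card_univ]
    rw [Finset.prod_congr rfl fun q _ => this q, Finset.prod_ite]
    simp only [prod_const_one, one_mul, prod_const]
    congr 1
    rw [show (univ.filter fun q => ¬ q ∈ eps o i κ star (blk w o)) =
      univ \ eps o i κ star (blk w o) by ext q; simp]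
    rw [Finset.card_sdiff_of_subset (Finset.subset_univ _), Finset.card_univ]
  have hF : F.card ≤ (Fintype.card X - 1) ^ ((PP o i).filter fun p => w p = true).card := by
    let F' : Finset (X → X) := Fintype.piFinset fun p =>
      if p = o then {v0} else if p = i then {v1} else
        if w p = true then univ.erase o else {o}
    have h1 : F ⊆ F' := by
      intro x hx
      obtain ⟨hx1, hx2, hx3⟩ := (Finset.mem_filter.1 hx).2
      rw [Fintype.mem_piFinset]
      intro p
      by_cases e1 : p = o
      · rw [if_pos e1, e1, hx2]; exact Finset.mem_singleton_self _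
      · rw [if_neg e1]
        by_cases e2 : p = i
        · rw [if_pos e2, e2, hx3]; exact Finset.mem_singleton_self _
        · rw [if_neg e2]
          have e3 := congrFun hx1 p
          by_cases e4 : w p = true
          · rw [if_pos e4, Finset.mem_erase]
            refine ⟨?_, Finset.mem_univ _⟩
            rw [e4] at e3
            simpa [zp] using e3
          · rw [if_neg e4, Finset.mem_singleton]
            rw [Bool.not_eq_true] at e4
            rw [e4] at e3
            simpa [zp] using e3
    refine (Finset.card_le_card h1).trans (le_of_eq ?_)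
    rw [Fintype.card_piFinset]
    have : ∀ p : X, (if p = o then ({v0} : Finset X) else if p = i then {v1} else
        if w p = true then univ.erase o else {o}).card =
        if p ∈ (PP o i).filter (fun p => w p = true) then Fintype.card X - 1 else 1 := by
      intro p
      by_cases e1 : p = o
      · simp [e1, PP]
      · by_cases e2 : p = i
        · simp [e2, PP, hoi.symm]
        · by_cases e4 : w p = true
          · simp [e1, e2, e4, PP]
          · simp [e1, e2, e4, PP]
    rw [Finset.prod_congr rfl fun p _ => this p, Finset.prod_ite]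
    simp only [prod_const_one, mul_one, prod_const]
    congr 2
    ext p
    simp
  have hb : (eps o i κ star (blk w o)).card ≤ Fintype.card β := Finset.card_le_univ _
  have hcardb : 1 ≤ Fintype.card β := Fintype.card_pos_iff.2 ⟨star⟩
  have hcards : 1 ≤ Fintype.card S := Fintype.card_pos_iff.2 ⟨z0⟩
  have hFT : F.card ≤ (T1 ×ˢ T2).card := by
    rw [Finset.card_product, hT1, hT2]
    exact hF.trans (capacity_ineq hoi hcards hs hd hn hcap w hb hcardb)
  have htype : ∀ x ∈ L, (fN o i η x, fU o i κ star z0 z1 x) ∈ T1 ×ˢ T2 := by
    intro x hx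
    obtain ⟨hxF, hlow⟩ := Finset.mem_filter.1 hx
    obtain ⟨hx1, hx2, hx3⟩ := (Finset.mem_filter.1 hxF).2
    obtain ⟨t1, t2⟩ := forced_type (κ := κ) (star := star) (z0 := z0) (z1 := z1)
      (i := i) hη x hlow
    rw [Finset.mem_product]
    refine ⟨?_, ?_⟩
    · rw [Fintype.mem_piFinset]
      intro j
      have t1j := t1 j
      have e : cls o i x = clw o i w := by unfold cls clw; rw [hx1]
      rw [e] at t1j
      by_cases h : clw o i w = true
      · rw [if_pos h]
        rw [h] at t1j
        obtain ⟨d, hd'⟩ := Option.isSome_iff_exists.1 t1j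
        exact Finset.mem_image.2 ⟨d, Finset.mem_univ _, hd'.symm⟩
      · rw [if_neg h]
        rw [Bool.not_eq_true] at h
        rw [h] at t1j
        rw [Finset.mem_singleton]
        exact Option.isSome_eq_false_iff.1 t1j |> Option.isNone_iff_eq_none.1
    · rw [Fintype.mem_piFinset]
      intro q
      have t2q := t2 q
      rw [hx1] at t2q
      by_cases h : q ∈ eps o i κ star (blk w o)
      · rw [if_pos h, Finset.mem_singleton]
        exact t2q.2 h
      · rw [if_neg h]
        rcases hq : fU o i κ star z0 z1 x q with a | a
        · exact Finset.mem_image.2 ⟨a, Finset.mem_univ _, hq.symm⟩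
        · exfalso
          exact h (t2q.1 (by rw [hq]))
  obtain ⟨f, hf1, hf2, hf3⟩ := exists_extension F L (T1 ×ˢ T2)
    (fun x => (fN o i η x, fU o i κ star z0 z1 x)) (Finset.filter_subset _ _) htype
    (by
      intro x hx x' hx' h
      obtain ⟨hxF, hlow⟩ := Finset.mem_filter.1 hx
      obtain ⟨hx1, hx2, hx3⟩ := (Finset.mem_filter.1 hxF).2
      obtain ⟨hxF', hlow'⟩ := Finset.mem_filter.1 hx'
      obtain ⟨hx1', hx2', hx3'⟩ := (Finset.mem_filter.1 hxF').2
      exact forced_inj hηinj hz hstar hlow hlow' (hx1.trans hx1'.symm) (hx2.trans hx2'.symm)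
        (hx3.trans hx3'.symm) (congrArg Prod.fst h) (congrArg Prod.snd h)) hFT
  refine ⟨f, ?_, ?_, ?_⟩
  · intro x hx1 hx2 hx3
    have hx : x ∈ F := Finset.mem_filter.2 ⟨Finset.mem_univ _, hx1, hx2, hx3⟩
    obtain ⟨m1, m2⟩ := Finset.mem_product.1 (hf1 x hx)
    rw [Fintype.mem_piFinset] at m1 m2
    refine ⟨fun j => ?_, fun q => ?_⟩
    · have := m1 j
      by_cases h : clw o i w = true
      · rw [if_pos h] at this
        obtain ⟨d, _, hd'⟩ := Finset.mem_image.1 this
        rw [← hd', h]; rfl
      · rw [if_neg h, Finset.mem_singleton] at this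
        rw [this]
        rw [Bool.not_eq_true] at h
        rw [h]; rfl
    · have := m2 q
      by_cases h : q ∈ eps o i κ star (blk w o)
      · rw [if_pos h, Finset.mem_singleton] at this
        simp only [this, h]
      · rw [if_neg h] at this
        obtain ⟨d, _, hd'⟩ := Finset.mem_image.1 this
        rw [← hd']
        simp [h]
  · intro x x' hx1 hx2 hx3 hx1' hx2' hx3' h
    exact hf2 (Finset.mem_filter.2 ⟨Finset.mem_univ _, hx1, hx2, hx3⟩)
      (Finset.mem_filter.2 ⟨Finset.mem_univ _, hx1', hx2', hx3'⟩) h
  · intro x hx1 hx2 hx3 hlow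
    exact hf3 x (Finset.mem_filter.2
      ⟨Finset.mem_filter.2 ⟨Finset.mem_univ _, hx1, hx2, hx3⟩, hlow⟩)

include hη hηinj hz in
/-- The embedding of the variant of type `(1, n - 1)`. -/
theorem exists_embedding (hstar : ∀ p, κ p ≠ star) (hoi : o ≠ i) (hn : 3 ≤ Fintype.card X)
    (hs : Fintype.card S ≤ Fintype.card X - 1)
    (hd : Fintype.card X - 1 ≤ Fintype.card D ^ Fintype.card J)
    (hcap : (Fintype.card X - 1) ^ (Fintype.card X - 3) ≤
      Fintype.card S ^ (Fintype.card β - 1)) (hJ : Nonempty J) :
    ∃ φ : (X → X) → ((J × Option D) ⊕ (S ⊕ Unit) ⊕ J ⊕ β → (J × Option D) ⊕ (S ⊕ Unit) ⊕ J ⊕ β),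
      Function.Injective φ ∧ ∀ x y, φ (x ∘ unb o i ∘ y) = φ x ∘ φ y := by
  classical
  choose f hf1 hf2 hf3 using exists_reading (κ := κ) (star := star) (z0 := z0) (z1 := z1)
    hη hηinj hz hstar hoi hn hs hd hcap
  let R : (X → X) → (J → Option D) × (β → S ⊕ Unit) := fun x => f (zp o x) (x o) (x i) x
  have hR1 : ∀ x j, ((R x).1 j).isSome = cls o i x := fun x j =>
    (hf1 _ _ _ x rfl rfl rfl).1 j
  have hR2 : ∀ x q, (R x).2 q = Sum.inr () ↔ q ∈ eps o i κ star (blk (zp o x) o) := fun x q =>
    (hf1 _ _ _ x rfl rfl rfl).2 q
  have hR3 : ∀ x, Low o x → R x = (fN o i η x, fU o i κ star z0 z1 x) := fun x hx =>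
    hf3 _ _ _ x rfl rfl rfl hx
  have hR4 : ∀ x x', x o = x' o → x i = x' i → R x = R x' → x = x' := by
    intro x x' h0 h1 h
    have hcls : cls o i x = cls o i x' := by
      rw [← hR1 x (Classical.choice hJ), ← hR1 x' (Classical.choice hJ), h]
    have heps : eps o i κ star (blk (zp o x) o) = eps o i κ star (blk (zp o x') o) := by
      ext q
      rw [← hR2, ← hR2, h]
    have e0 : zp o x o = zp o x' o := by simp only [zp, h0]
    have e1 : zp o x i = zp o x' i := by simp only [zp, h1]
    have hi : i ∈ blk (zp o x) o ↔ i ∈ blk (zp o x') o := by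
      rw [mem_blk, mem_blk, e0, e1]
    have hg : gch o i (blk (zp o x) o) ↔ gch o i (blk (zp o x') o) := by
      unfold cls at hcls
      rw [← e0] at hcls
      constructor
      · intro hh
        by_contra hh'
        rw [if_pos hh, if_neg hh'] at hcls
        cases zp o x o <;> simp at hcls
      · intro hh
        by_contra hh'
        rw [if_neg hh', if_pos hh] at hcls
        cases zp o x o <;> simp at hcls
    have hB := code_inj hstar (o_mem_blk _) (o_mem_blk _) hi hg heps
    have hw : zp o x = zp o x' := by
      funext p
      by_cases hp : p ∈ blk (zp o x) o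
      · have hp' := hp
        rw [hB] at hp'
        rw [mem_blk] at hp hp'
        rw [hp, hp', e0]
      · have hp' := hp
        rw [hB] at hp'
        rw [mem_blk] at hp hp'
        rw [bool_not _ _ hp, bool_not _ _ hp', e0]
    refine hf2 (zp o x') (x' o) (x' i) x x' hw h0 h1 rfl rfl rfl ?_
    change f (zp o x) (x o) (x i) x = f (zp o x') (x' o) (x' i) x' at h
    rw [hw, h0, h1] at h
    exact h
  let φ : (X → X) → ((J × Option D) ⊕ (S ⊕ Unit) ⊕ J ⊕ β → (J × Option D) ⊕ (S ⊕ Unit) ⊕ J ⊕ β) :=
    fun x r => match r with
    | Sum.inl (j, t) => Sum.inl (j, η (x (if t.isSome = true then i else o)) j)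
    | Sum.inr (Sum.inl (Sum.inl _)) => Sum.inr (Sum.inl (Sum.inl z0))
    | Sum.inr (Sum.inl (Sum.inr _)) => Sum.inr (Sum.inl (theta o z0 z1 (x o) (x i)))
    | Sum.inr (Sum.inr (Sum.inl j)) => Sum.inl (j, (R x).1 j)
    | Sum.inr (Sum.inr (Sum.inr q)) => Sum.inr (Sum.inl ((R x).2 q))
  refine ⟨φ, ?_, ?_⟩
  · intro x x' h
    have a0 : x o = x' o := by
      apply hηinj
      funext j
      have := congrFun h (Sum.inl (j, none))
      simpa [φ] using this
    have hD : Nonempty (Option D) := ⟨none⟩
    have a1 : x i = x' i := by
      by_cases hDe : Nonempty D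
      · obtain ⟨d⟩ := hDe
        apply hηinj
        funext j
        have := congrFun h (Sum.inl (j, some d))
        simpa [φ] using this
      · exfalso
        have hc0 : Fintype.card D = 0 := by
          rw [Fintype.card_eq_zero_iff]
          exact not_nonempty_iff.1 hDe
        have hJ0 : Fintype.card J ≠ 0 := Fintype.card_ne_zero
        rw [hc0, zero_pow hJ0] at hd
        omega
    refine hR4 x x' a0 a1 (Prod.ext ?_ ?_)
    · funext j
      have := congrFun h (Sum.inr (Sum.inr (Sum.inl j)))
      simpa [φ] using this
    · funext q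
      have := congrFun h (Sum.inr (Sum.inr (Sum.inr q)))
      simpa [φ] using this
  · intro y x
    obtain ⟨hlow, hpN, hpU⟩ := prod_rule (o := o) (i := i) (κ := κ) (star := star)
      (z0 := z0) (z1 := z1) (η := η) x y
    have hRp := hR3 _ hlow
    funext r
    rcases r with ⟨j, t⟩ | (_ | _) | j | q
    · simp only [φ, Function.comp]
      congr 2
      congr 1
      rw [hη]
      simp only [unb]
      by_cases hxo : x (if t.isSome = true then i else o) = o <;> simp [hxo]
    · rfl
    · simp only [φ, Function.comp]
      unfold unb
      by_cases h1 : x o = x i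
      · rw [h1]
        have : theta o z0 z1 (x i) (x i) = Sum.inl z0 := by unfold theta; simp
        rw [this]
        simp only
        unfold theta
        simp
      · by_cases h2 : x o = o ∨ x i = o
        · have : theta o z0 z1 (x o) (x i) = Sum.inr () := by
            unfold theta; rw [if_neg h1, if_pos h2]
          rw [this]
          simp only
          rcases h2 with h2 | h2
          · have h3 : x i ≠ o := fun h => h1 (h2.trans h.symm)
            rw [if_pos h2, if_neg h3]
          · have h3 : x o ≠ o := fun h => h1 (h.trans h2.symm)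
            rw [if_pos h2, if_neg h3, theta_comm]
        · have : theta o z0 z1 (x o) (x i) = Sum.inl z1 := by
            unfold theta; rw [if_neg h1, if_neg h2]
          rw [this]
          simp only [not_or] at h2
          rw [if_neg h2.1, if_neg h2.2]
          simp only
          unfold theta
          simp
    · have e1 : (R (y ∘ unb o i ∘ x)).1 j =
          η (y (if cls o i x = true then i else o)) j := by
        have := congrArg Prod.fst hRp
        exact congrFun (this.trans hpN) j
      change Sum.inl (j, (R (y ∘ unb o i ∘ x)).1 j) =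
        Sum.inl (j, η (y (if ((R x).1 j).isSome = true then i else o)) j)
      rw [e1, hR1]
    · have e1 : (R (y ∘ unb o i ∘ x)).2 q =
          if q ∈ eps o i κ star (blk (zp o x) o) then theta o z0 z1 (y o) (y i)
            else Sum.inl z0 := by
        have := congrArg Prod.snd hRp
        exact congrFun (this.trans hpU) q
      change Sum.inr (Sum.inl ((R (y ∘ unb o i ∘ x)).2 q)) =
        φ y (Sum.inr (Sum.inl ((R x).2 q)))
      rw [e1]
      by_cases hq : q ∈ eps o i κ star (blk (zp o x) o)
      · rw [if_pos hq, (hR2 x q).2 hq]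
      · rw [if_neg hq]
        rcases hq' : (R x).2 q with a | a
        · rfl
        · exact absurd ((hR2 x q).1 hq') hq

end Upper

end Pool.Agent.VarDeg
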