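import Mathlib
import Pool.Agent.VarDeg.Defs
import Pool.Agent.VarDeg.Upper
import Pool.Agent.VarDeg.Num

set_option autoImplicit false

namespace Pool.Agent.VarDeg

/-- The unbalanced map: `0 ↦ 0` and `p ↦ 1` for `p ≠ 0`. -/
def unbalanced : Fin 1024 → Fin 1024 := fun p => if p = 0 then 0 else 1

theorem upper_bound : VariantEmbeds 1024 unbalanced 1564 := by
  classical
  -- digits
  have hcard : Fintype.card {p : Fin 1024 // p ≠ 0} ≤ Fintype.card (Fin 5 → Fin 4) := by
    rw [Fintype.card_subtype_compl, Fintype.card_fin]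
    simp
  obtain ⟨ι⟩ := Function.Embedding.nonempty_of_card_le hcard
  let η : Fin 1024 → Fin 5 → Option (Fin 4) := fun p j =>
    if h : p ≠ 0 then some (ι ⟨p, h⟩ j) else none
  have hη : ∀ p j, (η p j).isSome = decide (p ≠ 0) := by
    intro p j
    by_cases h : p = 0 <;> simp [η, h]
  have hηinj : Function.Injective η := by
    intro p q h
    by_cases hp : p = 0 <;> by_cases hq : q = 0
    · rw [hp, hq]
    · exfalso
      have := congrFun h 0
      simp [η, hp, hq] at this
    · exfalso
      have := congrFun h 0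
      simp [η, hp, hq] at this
    · have : ι ⟨p, hp⟩ = ι ⟨q, hq⟩ := by
        funext j
        have := congrFun h j
        simpa [η, hp, hq] using this
      exact congrArg Subtype.val (ι.injective this)
  let κ : Fin 1024 ↪ Fin 1313 := ⟨fun p => ⟨p.val, by omega⟩, fun p q h => by
    simpa [Fin.ext_iff] using h⟩
  have hstar : ∀ p, κ p ≠ (⟨1312, by norm_num⟩ : Fin 1313) := by
    intro p h
    have : p.val = 1312 := congrArg Fin.val h
    omega
  obtain ⟨φ, hinj, hφ⟩ := exists_embedding (X := Fin 1024) (J := Fin 5) (D := Fin 4)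
    (S := Fin 220) (β := Fin 1313) (o := 0) (i := 1) (κ := κ) (star := ⟨1312, by norm_num⟩)
    (z0 := 0) (z1 := 1) (η := η) hη hηinj (by decide) hstar (by decide) (by simp) (by simp)
    (by simp) (by
      simp only [Fintype.card_fin]
      exact num4) ⟨0⟩
  have e : ((Fin 5 × Option (Fin 4)) ⊕ (Fin 220 ⊕ Unit) ⊕ Fin 5 ⊕ Fin 1313) ≃ Fin 1564 :=
    Fintype.equivOfCardEq (by simp)
  refine ⟨fun x => e ∘ φ x ∘ e.symm, ?_, ?_⟩
  · intro x x' h
    apply hinj
    funext r
    have := congrFun h (e r)
    simpa using this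
  · intro x y
    have h : unbalanced = unb (0 : Fin 1024) 1 := rfl
    simp only [h, hφ]
    funext r
    simp

/-- Every variant `T_n^a` embeds in `T_{2n}`. -/
theorem embeds_double (n : ℕ) (a : Fin n → Fin n) : VariantEmbeds n a (n + n) := by
  let φ : (Fin n → Fin n) → (Fin n ⊕ Fin n → Fin n ⊕ Fin n) := fun x r =>
    match r with
    | Sum.inl p => Sum.inl (x (a p))
    | Sum.inr p => Sum.inl (x p)
  let e : Fin n ⊕ Fin n ≃ Fin (n + n) := finSumFinEquiv
  refine ⟨fun x => e ∘ φ x ∘ e.symm, ?_, ?_⟩
  · intro x x' h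
    funext p
    have := congrFun h (e (Sum.inr p))
    simpa [φ] using this
  · intro x y
    funext r
    rcases hr : e.symm r with p | p <;> simp [φ, hr]

end Pool.Agent.VarDeg
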